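import Pool.Agent.K1H17.ST.Stm

/-! Project ST, piece DET: automorphisms of a lattice with positive eigenvalues have determinant one. -/

set_option autoImplicit false

open Module

namespace Pool.Agent.K1H82.ST

open Pool.Agent.K1H17.ST

theorem det_int {n : ℕ} {V : Type} [AddCommGroup V] [Module ℝ V] (b : Basis (Fin n) ℝ V)
    (f : V →ₗ[ℝ] V) (h : ∀ i j, ∃ z : ℤ, b.repr (f (b j)) i = z) :
    ∃ z : ℤ, LinearMap.det f = z := by
  choose z hz using h
  refine ⟨(Matrix.of z).det, ?_⟩
  have e : LinearMap.toMatrix b b f = (Matrix.of z).map (Int.castRingHom ℝ) := by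
    ext i j
    rw [LinearMap.toMatrix_apply, hz i j]
    rfl
  rw [← LinearMap.det_toMatrix b, e, ← RingHom.mapMatrix_apply, ← RingHom.map_det]
  rfl

theorem t_DET : S_DET := by
  intro n V _ _ b e f g c hf hg hfg hc hpos
  obtain ⟨y, hy⟩ := det_int b f hf
  obtain ⟨z, hz⟩ := det_int b g hg
  have h1 : LinearMap.det f * LinearMap.det g = 1 := by
    rw [← LinearMap.det_comp, hfg, LinearMap.det_id]
  have h2 : LinearMap.det f = ∏ i, c i := by
    rw [← LinearMap.det_toMatrix e]
    have : LinearMap.toMatrix e e f = Matrix.diagonal c := by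
      ext i j
      rw [LinearMap.toMatrix_apply, hc j, map_smul, Basis.repr_self, Finsupp.smul_apply,
        Finsupp.single_apply, Matrix.diagonal_apply]
      by_cases h : i = j
      · rw [if_pos h.symm, if_pos h, h]
        simp
      · rw [if_neg (Ne.symm h), if_neg h]
        simp
    rw [this, Matrix.det_diagonal]
  have h3 : 0 < ∏ i, c i := Finset.prod_pos fun i _ => hpos i
  rw [hy, hz] at h1
  have h4 : y * z = 1 := by exact_mod_cast h1
  have h5 : 0 < y := by
    have : (0 : ℝ) < y := by rw [← hy, h2]; exact h3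
    exact_mod_cast this
  have h6 : y = 1 := by
    rcases Int.eq_one_or_neg_one_of_mul_eq_one h4 with h | h
    · exact h
    · omega
  rw [← h2, hy, h6]
  norm_num

end Pool.Agent.K1H82.ST
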